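import Mathlib
import Pool.Agent.Helper644.Quad3

set_option autoImplicit false

open AlgebraicGeometry CategoryTheory CategoryTheory.Limits Polynomial

namespace Pool.Agent.Results.MP_a70ae2_nt.NotDense

/-- The coordinate ring `ℚ[x, y] / (y ^ 2 - f(x))` of the affine curve `y ^ 2 = f(x)`. -/
abbrev CoordRing (f : ℚ[X]) : Type := AdjoinRoot (X ^ 2 - C f : ℚ[X][X])

lemma root_sq (f : ℚ[X]) :
    (AdjoinRoot.root (X ^ 2 - C f : ℚ[X][X])) ^ 2 =
      AdjoinRoot.of (X ^ 2 - C f : ℚ[X][X]) f := by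
  have h := AdjoinRoot.eval₂_root (X ^ 2 - C f : ℚ[X][X])
  simp only [eval₂_sub, eval₂_X_pow, eval₂_C] at h
  exact sub_eq_zero.1 h

/-- the coordinate `x`, the image of the variable of `f`. -/
noncomputable def xc (f : ℚ[X]) : CoordRing f :=
  AdjoinRoot.of (X ^ 2 - C f : ℚ[X][X]) X

/-- A point of a quadratic extension field lying on both curves has `x = 0`. -/
lemma x_eq_zero {K : Type} [Field K] [Algebra ℚ K] (hK : Module.finrank ℚ K = 2)
    (φ : CoordRing (X ^ 8 + 1) →+* K) (ψ : CoordRing (-(X ^ 6 + 1)) →+* K) :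
    φ (xc _) = 0 := by
  refine Pool.Agent.Helper644.Quad3.main K hK (φ (xc _)) (φ (AdjoinRoot.root _))
    (ψ (xc _)) (ψ (AdjoinRoot.root _)) ?_ ?_
  · rw [← map_pow, root_sq, ← map_pow]
    simp only [xc, map_add, map_pow, map_one]
  · rw [← map_pow, root_sq, ← map_pow]
    simp only [xc, map_add, map_pow, map_one, map_neg]

lemma finrank_module_irrel (K : Type) [AddCommGroup K] (m₁ m₂ : Module ℚ K) :
    @Module.finrank ℚ K _ _ m₁ = @Module.finrank ℚ K _ _ m₂ := by
  rw [Subsingleton.elim m₁ m₂]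

/-- a complex point of the affine curve -/
lemma exists_complex_point (f : ℚ[X]) (a : ℂ) :
    ∃ φ : CoordRing f →+* ℂ, φ (xc f) = a := by
  obtain ⟨y, hy⟩ := IsAlgClosed.exists_pow_nat_eq (f.eval₂ (algebraMap ℚ ℂ) a) (n := 2) (by norm_num)
  refine ⟨AdjoinRoot.lift (eval₂RingHom (algebraMap ℚ ℂ) a) y ?_, ?_⟩
  · simp [hy]
  · simp [xc]

/-- the structure map factors through any point -/
lemma comp_hom_eq {f : ℚ[X]} {V : Scheme.{0}} (v : V ⟶ Spec (CommRingCat.of ℚ))
    (i : Spec (CommRingCat.of (CoordRing f)) ⟶ V)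
    (hi : i ≫ v = Spec.map (CommRingCat.ofHom (algebraMap ℚ (CoordRing f))))
    (φ : CoordRing f →+* ℂ) :
    (Spec.map (CommRingCat.ofHom φ) ≫ i) ≫ v =
      Spec.map (CommRingCat.ofHom (algebraMap ℚ ℂ)) := by
  rw [Category.assoc, hi, ← Spec.map_comp, ← CommRingCat.ofHom_comp]
  congr 2
  exact Subsingleton.elim _ _

/-- the open subset of the product where both coordinates are on the affine curves and `x ≠ 0`. -/
def goodSet {f g : ℚ[X]} {V W : Scheme.{0}} (v : V ⟶ Spec (CommRingCat.of ℚ))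
    (w : W ⟶ Spec (CommRingCat.of ℚ))
    (i : Spec (CommRingCat.of (CoordRing f)) ⟶ V)
    (j : Spec (CommRingCat.of (CoordRing g)) ⟶ W) : Set ↥(pullback v w) :=
  (pullback.fst v w) ⁻¹' (i '' ((PrimeSpectrum.basicOpen (xc f) :
    TopologicalSpace.Opens (PrimeSpectrum (CoordRing f))) : Set (PrimeSpectrum (CoordRing f)))) ∩
    (pullback.snd v w) ⁻¹' (Set.range j)

lemma isOpen_goodSet {f g : ℚ[X]} {V W : Scheme.{0}} (v : V ⟶ Spec (CommRingCat.of ℚ))
    (w : W ⟶ Spec (CommRingCat.of ℚ))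
    (i : Spec (CommRingCat.of (CoordRing f)) ⟶ V)
    (j : Spec (CommRingCat.of (CoordRing g)) ⟶ W)
    [IsOpenImmersion i] [IsOpenImmersion j] : IsOpen (goodSet v w i j) := by
  have h1 : IsOpen (i '' ((PrimeSpectrum.basicOpen (xc f) :
    TopologicalSpace.Opens (PrimeSpectrum (CoordRing f))) : Set (PrimeSpectrum (CoordRing f)))) :=
    i.isOpenEmbedding.isOpenMap _ (PrimeSpectrum.basicOpen (xc f)).2
  have h2 : IsOpen (Set.range j) := j.isOpenEmbedding.isOpen_range
  exact (h1.preimage (pullback.fst v w).continuous).inter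
    (h2.preimage (pullback.snd v w).continuous)

lemma goodSet_nonempty {f g : ℚ[X]} {V W : Scheme.{0}} (v : V ⟶ Spec (CommRingCat.of ℚ))
    (w : W ⟶ Spec (CommRingCat.of ℚ))
    (i : Spec (CommRingCat.of (CoordRing f)) ⟶ V)
    (j : Spec (CommRingCat.of (CoordRing g)) ⟶ W)
    (hi : i ≫ v = Spec.map (CommRingCat.ofHom (algebraMap ℚ (CoordRing f))))
    (hj : j ≫ w = Spec.map (CommRingCat.ofHom (algebraMap ℚ (CoordRing g)))) :
    (goodSet v w i j).Nonempty := by
  obtain ⟨φ, hφ⟩ := exists_complex_point f 1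
  obtain ⟨ψ, hψ⟩ := exists_complex_point g 1
  let q₁ := Spec.map (CommRingCat.ofHom φ) ≫ i
  let q₂ := Spec.map (CommRingCat.ofHom ψ) ≫ j
  have hq : q₁ ≫ v = q₂ ≫ w := by
    rw [comp_hom_eq v i hi, comp_hom_eq w j hj]
  let q : Spec (CommRingCat.of ℂ) ⟶ pullback v w := pullback.lift q₁ q₂ hq
  let pt : Spec (CommRingCat.of ℂ) := (⟨⊥, Ideal.isPrime_bot⟩ : PrimeSpectrum ℂ)
  refine ⟨q pt, ⟨Spec.map (CommRingCat.ofHom φ) pt, ?_, ?_⟩, Spec.map (CommRingCat.ofHom ψ) pt, ?_⟩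
  · change ¬ (φ (xc f) ∈ (⊥ : Ideal ℂ))
    rw [hφ]
    simp
  · rw [← Scheme.Hom.comp_apply, ← Scheme.Hom.comp_apply, pullback.lift_fst]
  · rw [← Scheme.Hom.comp_apply, ← Scheme.Hom.comp_apply, pullback.lift_snd]

/-- The degree two points avoid `goodSet`. -/
lemma not_mem_goodSet {V W : Scheme.{0}} (v : V ⟶ Spec (CommRingCat.of ℚ))
    (w : W ⟶ Spec (CommRingCat.of ℚ))
    (i : Spec (CommRingCat.of (CoordRing (X ^ 8 + 1))) ⟶ V)
    (j : Spec (CommRingCat.of (CoordRing (-(X ^ 6 + 1)))) ⟶ W)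
    [IsOpenImmersion i] [IsOpenImmersion j] (p : ↥(pullback v w))
    (m : Module ℚ ((pullback v w).residueField p))
    (hp : @Module.finrank ℚ ((pullback v w).residueField p) _ _ m = 2)
    (hm : p ∈ goodSet v w i j) : False := by
  obtain ⟨⟨c, hc, hcp⟩, ⟨d, hdp⟩⟩ := hm
  let g := (pullback v w).fromSpecResidueField p
  have hg : ∀ s, g s = p := fun s => Scheme.fromSpecResidueField_apply _ s
  have h1 : Set.range (g ≫ pullback.fst v w) ⊆ Set.range i := by
    rintro _ ⟨s, rfl⟩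
    refine ⟨c, ?_⟩
    rw [hcp, Scheme.Hom.comp_apply, hg]
  have h2 : Set.range (g ≫ pullback.snd v w) ⊆ Set.range j := by
    rintro _ ⟨s, rfl⟩
    refine ⟨d, ?_⟩
    rw [hdp, Scheme.Hom.comp_apply, hg]
  let l₁ := IsOpenImmersion.lift i (g ≫ pullback.fst v w) h1
  let l₂ := IsOpenImmersion.lift j (g ≫ pullback.snd v w) h2
  let φ : CoordRing (X ^ 8 + 1) →+* (pullback v w).residueField p := (Spec.preimage l₁).hom
  let ψ : CoordRing (-(X ^ 6 + 1)) →+* (pullback v w).residueField p := (Spec.preimage l₂).hom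
  let r : ℚ →+* (pullback v w).residueField p := φ.comp (algebraMap ℚ _)
  have hK : @Module.finrank ℚ ((pullback v w).residueField p) _ _ r.toAlgebra.toModule = 2 :=
    (finrank_module_irrel _ _ _).trans hp
  have hx := @x_eq_zero _ _ r.toAlgebra hK φ ψ
  -- the point `c` is the image of the point of `Spec κ(p)`
  let pt : Spec ((pullback v w).residueField p) :=
    (⟨⊥, Ideal.isPrime_bot⟩ : PrimeSpectrum ((pullback v w).residueField p))
  have hcpt : l₁ pt = c := by
    apply i.isOpenEmbedding.injective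
    rw [← Scheme.Hom.comp_apply, IsOpenImmersion.lift_fac, Scheme.Hom.comp_apply, hg, hcp]
  apply hc
  rw [← hcpt]
  have h3 : l₁ = Spec.map (Spec.preimage l₁) := (Spec.map_preimage l₁).symm
  rw [h3]
  change φ (xc _) ∈ (⊥ : Ideal _)
  rw [hx]
  exact Ideal.zero_mem _

lemma squarefree_f : Squarefree (X ^ 8 + 1 : ℚ[X]) := by
  have h : (X ^ 8 + 1 : ℚ[X]) = X ^ 8 - C (-1) := by simp
  rw [h]
  exact (separable_X_pow_sub_C (-1 : ℚ) (by norm_num) (by norm_num)).squarefree

lemma squarefree_g : Squarefree (-(X ^ 6 + 1) : ℚ[X]) := by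
  have h : (-(X ^ 6 + 1) : ℚ[X]) = C (-1) * (X ^ 6 - C (-1)) := by simp
  rw [h]
  have hu : IsUnit (C (-1) : ℚ[X]) := by
    rw [isUnit_C]; norm_num
  have h2 : Associated (X ^ 6 - C (-1) : ℚ[X]) (C (-1) * (X ^ 6 - C (-1))) :=
    associated_unit_mul_right _ _ hu
  have h3 : Squarefree (X ^ 6 - C (-1) : ℚ[X]) :=
    (separable_X_pow_sub_C (-1 : ℚ) (by norm_num) (by norm_num)).squarefree
  exact h2.squarefree_iff.1 h3

/-- There are squarefree `f, g ∈ ℚ[x]` of degrees `8` and `6` such that for all `ℚ`-schemes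
`V` and `W` containing the affine curves `y ^ 2 = f(x)` and `y ^ 2 = g(x)` as open subschemes,
the closed points of degree `2` of `V ×_ℚ W` are not Zariski dense. -/
theorem result :
    ∃ f g : ℚ[X], Squarefree f ∧ f.natDegree = 8 ∧ Squarefree g ∧ g.natDegree = 6 ∧
      ∀ (V W : Scheme.{0}) (v : V ⟶ Spec (CommRingCat.of ℚ)) (w : W ⟶ Spec (CommRingCat.of ℚ))
        (i : Spec (CommRingCat.of (CoordRing f)) ⟶ V)
        (j : Spec (CommRingCat.of (CoordRing g)) ⟶ W),
        IsOpenImmersion i → IsOpenImmersion j →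
        i ≫ v = Spec.map (CommRingCat.ofHom (algebraMap ℚ (CoordRing f))) →
        j ≫ w = Spec.map (CommRingCat.ofHom (algebraMap ℚ (CoordRing g))) →
        ¬ Dense {p : ↥(pullback v w) | IsClosed ({p} : Set ↥(pullback v w)) ∧
          @Module.finrank ℚ ((pullback v w).residueField p) _ _
            (((Scheme.ΓSpecIso (CommRingCat.of ℚ)).inv ≫ (pullback.fst v w ≫ v).appTop ≫
              (pullback v w).presheaf.germ ⊤ p trivial ≫
                (pullback v w).residue p).hom.toModule) = 2} := by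
  refine ⟨X ^ 8 + 1, -(X ^ 6 + 1), squarefree_f, by compute_degree!, squarefree_g,
    by rw [natDegree_neg]; compute_degree!, ?_⟩
  intro V W v w i j hi0 hj0 hi hj hdense
  obtain ⟨p, hp1, hp2⟩ := hdense.inter_open_nonempty _ (isOpen_goodSet v w i j)
    (goodSet_nonempty v w i j hi hj)
  exact not_mem_goodSet v w i j p _ hp2.2 hp1

end Pool.Agent.Results.MP_a70ae2_nt.NotDense
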